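import Pool.Agent.U204.PN.Stm

/-!
# Package ONE of project PN: the effect of one large part
-/

set_option autoImplicit false

namespace Pool.Agent.U843.PN

open Pool.Agent.U204.PN

theorem t_ONE : S_ONE := by
  intro A m x hmx hx hmA
  classical
  have hm : 0 < m := by omega
  unfold pt
  let f : {p : x.Partition // ∀ i ∈ p.parts, i ∈ A} ⊕
      {p : (x - m).Partition // ∀ i ∈ p.parts, i ∈ A} →
      {p : x.Partition // ∀ i ∈ p.parts, i ∈ insert m A} := fun s =>
    Sum.elim
      (fun p => ⟨p.1, fun i hi => Set.mem_insert_of_mem _ (p.2 i hi)⟩)
      (fun p => ⟨⟨m ::ₘ p.1.parts, by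
          intro i hi
          rcases Multiset.mem_cons.1 hi with h | h
          · omega
          · exact p.1.parts_pos h, by
          rw [Multiset.sum_cons, p.1.parts_sum]; omega⟩, by
          intro i hi
          rcases Multiset.mem_cons.1 hi with h | h
          · exact h ▸ Set.mem_insert _ _
          · exact Set.mem_insert_of_mem _ (p.2 i h)⟩) s
  have hf : Function.Bijective f := by
    constructor
    · rintro (⟨p, hp⟩ | ⟨p, hp⟩) (⟨q, hq⟩ | ⟨q, hq⟩) h
      · have h1 : p = q := congrArg Subtype.val h
        subst h1
        rfl
      · exfalso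
        have h1 : p.parts = m ::ₘ q.parts := congrArg (fun z => z.1.parts) h
        exact hmA (hp m (h1 ▸ Multiset.mem_cons_self _ _))
      · exfalso
        have h1 : m ::ₘ p.parts = q.parts := congrArg (fun z => z.1.parts) h
        exact hmA (hq m (h1 ▸ Multiset.mem_cons_self _ _))
      · have h1 : m ::ₘ p.parts = m ::ₘ q.parts := congrArg (fun z => z.1.parts) h
        have h2 : p.parts = q.parts := (Multiset.cons_inj_right m).1 h1
        have h3 : p = q := Nat.Partition.ext h2
        subst h3
        rfl
    · rintro ⟨p, hp⟩
      by_cases hmp : m ∈ p.parts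
      · have hsum : (p.parts.erase m).sum = x - m := by
          have h1 : m + (p.parts.erase m).sum = p.parts.sum := by
            rw [← Multiset.sum_cons, Multiset.cons_erase hmp]
          rw [p.parts_sum] at h1
          omega
        refine ⟨Sum.inr ⟨⟨p.parts.erase m, fun {i} hi => p.parts_pos (Multiset.mem_of_mem_erase hi),
          hsum⟩, ?_⟩, ?_⟩
        · intro i hi
          rcases hp i (Multiset.mem_of_mem_erase hi) with h | h
          · exfalso
            subst h
            have h2 : i ≤ (p.parts.erase i).sum := Multiset.single_le_sum (fun _ _ => Nat.zero_le _) i hi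
            omega
          · exact h
        · apply Subtype.ext
          apply Nat.Partition.ext
          exact Multiset.cons_erase hmp
      · refine ⟨Sum.inl ⟨p, ?_⟩, rfl⟩
        intro i hi
        rcases hp i hi with h | h
        · exact absurd (h ▸ hi) hmp
        · exact h
  rw [← Nat.card_eq_of_bijective f hf, Nat.card_sum]

end Pool.Agent.U843.PN
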